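import Pool.Agent.W622.BK.Stm

/-! # BK-BASE: from trilinear forms to `Ex` for `p = 0` -/

set_option autoImplicit false

namespace Pool.Agent.W822.BK.BASE

open Module Pool.Agent.W622.BK

universe u

variable {k : Type u} [Field k] {E : Type u} [AddCommGroup E] [Module k E]

/-- a functional as a form of one variable -/
noncomputable def C' : (E →ₗ[k] k) →ₗ[k] G k E 1 where
  toFun f := (cur k E).symm ((ev0 k E).symm.toLinearMap ∘ₗ f)
  map_add' f g := by rw [LinearMap.comp_add, map_add]
  map_smul' c f := by rw [LinearMap.comp_smul, map_smul, RingHom.id_apply]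

theorem cur_C' (f : E →ₗ[k] k) : cur k E (C' f) = (ev0 k E).symm.toLinearMap ∘ₗ f := by
  show cur k E ((cur k E).symm ((ev0 k E).symm.toLinearMap ∘ₗ f)) = _
  rw [LinearEquiv.apply_symm_apply]

theorem one_C' (f : E →ₗ[k] k) : one k E (C' f) = f := by
  unfold one
  rw [cur_C']
  ext a
  show (ev0 k E) ((ev0 k E).symm (f a)) = f a
  rw [LinearEquiv.apply_symm_apply]

theorem C'_one (w : G k E 1) : C' (one k E w) = w := by
  apply (cur k E).injective
  rw [cur_C']
  ext1 a
  show (ev0 k E).symm ((ev0 k E) (cur k E w a)) = cur k E w a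
  rw [LinearEquiv.symm_apply_apply]

/-- a bilinear form as a form of two variables -/
noncomputable def B' : (E →ₗ[k] E →ₗ[k] k) →ₗ[k] G k E 2 where
  toFun f := (cur k E).symm (C' ∘ₗ f)
  map_add' f g := by rw [LinearMap.comp_add, map_add]
  map_smul' c f := by rw [LinearMap.comp_smul, map_smul, RingHom.id_apply]

theorem cur_B' (f : E →ₗ[k] E →ₗ[k] k) (e : E) : cur k E (B' f) e = C' (f e) := by
  show cur k E ((cur k E).symm (C' ∘ₗ f)) e = _
  rw [LinearEquiv.apply_symm_apply]
  rfl

/-- `w ↦ one w` as a linear map -/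
noncomputable def C1 : G k E 1 →ₗ[k] (E →ₗ[k] k) where
  toFun w := one k E w
  map_add' a b := by unfold one; rw [map_add, LinearMap.comp_add]
  map_smul' c a := by unfold one; rw [map_smul, LinearMap.comp_smul, RingHom.id_apply]

theorem skew {R : Submodule k (E →ₗ[k] E →ₗ[k] k)} (hR : Alt R) {β : E →ₗ[k] E →ₗ[k] k}
    (hβ : β ∈ R) (e e' : E) : β e e' = - β e' e := by
  have h := hR β hβ (e + e')
  simp only [map_add, LinearMap.add_apply, hR β hβ e, hR β hβ e', zero_add, add_zero] at h
  first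
    | exact eq_neg_of_add_eq_zero_left h
    | exact eq_neg_of_add_eq_zero_right h

theorem t_BASE : S_BASE.{u} := by
  intro k _ E _ _ _ R X hR h T hT hcyc
  -- the trilinear form
  set T1 : E →ₗ[k] E →ₗ[k] (E →ₗ[k] k) := T.compr₂ C1 with hT1
  set τ : E →ₗ[k] E →ₗ[k] E →ₗ[k] k := (LinearMap.lflip.toLinearMap ∘ₗ T1).flip with hτ
  have hτa : ∀ a e e', τ a e e' = one k E (T e e') a := fun a e e' => rfl
  have hX : ∀ e e', (τ.flip e).flip e' ∈ X := by
    intro e e'
    have h1 : (τ.flip e).flip e' = one k E (T e e') := by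
      ext a
      exact hτa a e e'
    rw [h1]
    exact hT e e'
  have hc : Cyc R (fun a e e' => τ a e e') := hcyc (ev0 k E).toLinearMap
  obtain ⟨s, p, hsp, hs, hp, hpX⟩ := h τ hX hc
  set s' : E →ₗ[k] E →ₗ[k] E →ₗ[k] k := (LinearMap.lflip.toLinearMap ∘ₗ s.flip).flip with hs'
  have hs'a : ∀ e' e a, s' e' e a = s a e e' := fun e' e a => rfl
  set p' : E →ₗ[k] E →ₗ[k] E →ₗ[k] k := LinearMap.lflip.toLinearMap ∘ₗ p.flip with hp'
  have hp'a : ∀ e e' a, p' e e' a = p a e e' := fun e e' a => rfl
  have hskew : ∀ e' a e, s a e e' = - s e a e' := by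
    intro e' a e
    exact skew hR (hs e').1 a e
  refine ⟨B' ∘ₗ s', p'.compr₂ C', ?_, ?_, ?_, ?_⟩
  · intro e'
    refine ⟨fun e => ?_, fun φ => ?_⟩
    · show one k E (cur k E (B' (s' e')) e) ∈ X
      rw [cur_B', one_C']
      have h1 : s' e' e = - (s.compr₂ (LinearMap.applyₗ e')) e := by
        ext a
        rw [hs'a]
        exact hskew e' a e
      rw [h1]
      exact X.neg_mem ((hs e').2 e)
    · have h1 : (cc k E ((B' ∘ₗ s') e')).compr₂ φ =
          (-(φ ((ev0 k E).symm 1))) • (s.compr₂ (LinearMap.applyₗ e')) := by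
        ext e a
        have h2 : cc k E ((B' ∘ₗ s') e') e a = (ev0 k E).symm (s a e e') := by
          show cur k E (cur k E (B' (s' e')) e) a = _
          rw [cur_B', cur_C']
          rfl
        rw [LinearMap.compr₂_apply, h2]
        have h3 : (ev0 k E).symm (s a e e') = (s a e e') • (ev0 k E).symm (1 : k) := by
          rw [← map_smul, smul_eq_mul, mul_one]
        rw [h3, map_smul, LinearMap.smul_apply, LinearMap.smul_apply, LinearMap.compr₂_apply,
          LinearMap.applyₗ_apply_apply, hskew e' a e, smul_eq_mul, smul_eq_mul]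
        ring
      rw [h1]
      exact R.smul_mem _ (hs e').1
  · intro e e'
    show one k E (C' (p' e e')) ∈ X
    rw [one_C']
    exact hpX e e'
  · intro φ
    obtain ⟨a, ha⟩ := (Module.evalEquiv k E).surjective (φ ∘ₗ C')
    have h1 : (p'.compr₂ C').compr₂ φ = p a := by
      ext e e'
      rw [LinearMap.compr₂_apply, LinearMap.compr₂_apply]
      have h2 : φ (C' (p' e e')) = (φ ∘ₗ C') (p' e e') := rfl
      rw [h2, ← ha, Module.evalEquiv_apply]
      exact hp'a e e' a
    rw [h1]
    exact hp a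
  · intro e e'
    have h1 : one k E (T e e') = s' e' e + p' e e' := by
      ext a
      rw [LinearMap.add_apply, hs'a, hp'a, ← hτa]
      exact hsp a e e'
    have h2 : cur k E ((B' ∘ₗ s') e') e = C' (s' e' e) := cur_B' _ _
    rw [h2, LinearMap.compr₂_apply, ← map_add, ← h1, C'_one]

end Pool.Agent.W822.BK.BASE
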